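import Pool.Agent.Lib_MP_4704fc09_ins.Gen

/-!
# MP_4704fc09_an: analytic norms on all closed spaces of compact operators

`K(ℓ₂)` and every closed subspace of it has, for every `ε > 0`, a real analytic norm which is
`(1 + ε)`-equivalent to the operator norm.
-/

set_option autoImplicit false

namespace Pool.Agent.Results.MP_4704fc09_an.SubspacesOfCompact

/-- a separable Hilbert space has a total sequence in its unit ball -/
theorem exists_total (H : Type*) [NormedAddCommGroup H] [InnerProductSpace ℝ H]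
    [TopologicalSpace.SeparableSpace H] :
    ∃ e : ℕ → H, (∀ n, ‖e n‖ ≤ 1) ∧ ∀ v : H, (∀ n, inner ℝ (e n) v = 0) → v = 0 := by
  refine ⟨fun n => (1 + ‖TopologicalSpace.denseSeq H n‖)⁻¹ • TopologicalSpace.denseSeq H n,
    fun n => ?_, fun v hv => ?_⟩
  · have h0 := norm_nonneg (TopologicalSpace.denseSeq H n)
    rw [norm_smul, norm_inv, Real.norm_eq_abs, abs_of_pos (by linarith), inv_mul_le_iff₀
      (by linarith)]
    linarith
  · have h1 : ∀ n, inner ℝ (TopologicalSpace.denseSeq H n) v = 0 := by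
      intro n
      have h := hv n
      have h0 := norm_nonneg (TopologicalSpace.denseSeq H n)
      rw [real_inner_smul_left] at h
      exact (mul_eq_zero.1 h).resolve_left (inv_ne_zero (by linarith))
    have h2 : ∀ u : H, inner ℝ u v = 0 := by
      have hcl : IsClosed {u : H | inner ℝ u v = 0} :=
        isClosed_eq (continuous_id.inner continuous_const) continuous_const
      have hd := TopologicalSpace.denseRange_denseSeq H
      intro u
      have hsub : Set.range (TopologicalSpace.denseSeq H) ⊆ {u : H | inner ℝ u v = 0} := by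
        rintro _ ⟨n, rfl⟩
        exact h1 n
      exact hcl.closure_subset_iff.2 hsub (hd u)
    exact inner_self_eq_zero.1 (h2 v)

/-- For every separable real Hilbert space `H`, every closed linear space `X` of compact operators
on `H` (operator norm) and every `ε > 0` there is a norm `N` on `X` with
`‖T‖ ≤ N T ≤ (1 + ε) ‖T‖` which near every `T ≠ 0` is the sum of a series of continuous
homogeneous polynomials. -/
theorem result (H : Type*) [NormedAddCommGroup H] [InnerProductSpace ℝ H] [CompleteSpace H]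
    [TopologicalSpace.SeparableSpace H] (X : Submodule ℝ (H →L[ℝ] H))
    (hX : IsClosed (X : Set (H →L[ℝ] H))) (hc : ∀ T ∈ X, IsCompactOperator T)
    (ε : ℝ) (hε : 0 < ε) :
    ∃ N : X → ℝ,
      (∀ S T : X, N (S + T) ≤ N S + N T) ∧
      (∀ (a : ℝ) (T : X), N (a • T) = |a| * N T) ∧
      (∀ T : X, ‖T‖ ≤ N T ∧ N T ≤ (1 + ε) * ‖T‖) ∧
      ∀ T : X, T ≠ 0 → ∃ r : ℝ, 0 < r ∧
        ∃ P : (n : ℕ) → ContinuousMultilinearMap ℝ (fun _ : Fin n => X) ℝ,
          ∀ h : X, ‖h‖ < r → HasSum (fun n => P n (fun _ => h)) (N (T + h)) := by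
  obtain ⟨e, he, htot⟩ := exists_total H
  have hcs : CompleteSpace X := hX.completeSpace_coe
  have hρ : 0 < (1 + ε)⁻¹ := inv_pos.2 (by linarith)
  have hρ1 : (1 + ε)⁻¹ < 1 := inv_lt_one_of_one_lt₀ (by linarith)
  obtain ⟨N, hN, hA⟩ := Pool.Agent.Lib4704.Gen.main (X := X) hρ hρ1 X.subtypeL (fun _ => rfl)
    (fun T => hc T.1 T.2) he htot
  refine ⟨fun T => N T, fun S T => map_add_le_add N S T, fun a T => ?_, fun T => ⟨(hN T).1, ?_⟩,
    fun T hT => ?_⟩
  · change N (a • T) = |a| * N T
    rw [map_smul_eq_mul, Real.norm_eq_abs]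
  · have h := (hN T).2
    rwa [inv_mul_le_iff₀ (by linarith)] at h
  · obtain ⟨p, r, hp⟩ := hA T hT
    obtain ⟨s, hs0, hs⟩ := ENNReal.lt_iff_exists_nnreal_btwn.1 hp.r_pos
    refine ⟨s, by exact_mod_cast hs0, p, fun h hh => ?_⟩
    apply hp.hasSum
    rw [Metric.mem_eball, edist_zero_right]
    refine lt_trans ?_ hs
    rw [← ofReal_norm, ← ENNReal.ofReal_coe_nnreal]
    exact (ENNReal.ofReal_lt_ofReal_iff (by exact_mod_cast hs0)).2 hh

end Pool.Agent.Results.MP_4704fc09_an.SubspacesOfCompact
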